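import Pool.Agent.N583.PM.Complete
import Pool.Agent.N583.PM.Mem

/-!
# COL-2PM is NP-complete

Reduction from 3SAT. For every variable `x` and every position `t` of a literal there is a block; the
blocks of `x` form a cycle of edges of colour 1, and the first matching uses one of the two perfect
matchings of this cycle (the value of `x`). Paths of length three between the vertices of a block,
with colours 2, 1, 2, force the partners of these vertices in the second matching. In the block of `x`
and `t`, if `x` is the variable of the literal `t`, the two inner vertices of one of these paths are
also joined to two vertices `c`, `d` of the clause, and `c d` is an edge of colour 1, which has to be
in the first matching. So the second matching joins `c` and `d` to the inner vertices of the path in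
the block of one of the literals of the clause, and then it has to contain the edge of the cycle
which joins the ends of this path, so that this edge is not in the first matching. This means that
the literal is true.
-/

set_option autoImplicit false

namespace Pool.Agent.Results.MP_439cda_lc.MatchingPairNPComplete

open Pool.Agent.NPC Pool.Agent.N583.PM

/-- The problem COL-2PM (given a 2-edge-coloured bipartite graph, are there two edge-disjoint perfect
matchings, the first of which has only edges of colour 1?) is in NP, and it is NP-hard. -/
theorem result : InNPP COL2PM ∧ NPHardP COL2PM :=
  ⟨inNPP_COL2PM, hardI_COL2PM.toNPHardP⟩

end Pool.Agent.Results.MP_439cda_lc.MatchingPairNPComplete
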